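import Pool.Agent.H889R3.RQ.Stmts
import Pool.Agent.H572R4.QB.E1

set_option autoImplicit false

/-! # RQ.A2: the total influence of a bounded function is at most its degree -/

namespace Pool.Agent.H023R3.RQ

open Finset Pool.Agent.H572R2 Pool.Agent.H572R4.QA Pool.Agent.H889R3.RQ

variable {N : ℕ}

lemma inf2_eq (f : (Fin N → Bool) → ℝ) (i : Fin N) : inf2 f i = inf1 f i := by
  unfold inf2 inf1
  rw [div_eq_inv_mul, ← EE_mul]
  congr 1
  funext x
  simp only [dd]
  rw [sq_abs]
  ring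

lemma var_le_one (f : (Fin N → Bool) → ℝ) (h : ∀ x, |f x| ≤ 1) : var f ≤ 1 := by
  unfold var
  have h1 : EE (fun x => f x ^ 2) ≤ EE (fun _ : Fin N → Bool => (1 : ℝ)) :=
    EE_mono fun x => by
      rw [← sq_abs]
      exact pow_le_one₀ (abs_nonneg _) (h x)
  rw [EE_const] at h1
  nlinarith [sq_nonneg (EE f)]

theorem a2 : St_A2 := by
  intro N d f hf hd
  unfold tot
  simp only [inf2_eq]
  have h1 := sum_inf1_le d f hd
  have h2 := var_le_one f hf
  have h3 : (0 : ℝ) ≤ d := Nat.cast_nonneg d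
  calc ∑ i, inf1 f i ≤ d * var f := h1
    _ ≤ d * 1 := mul_le_mul_of_nonneg_left h2 h3
    _ = d := mul_one _

end Pool.Agent.H023R3.RQ
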